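import Pool.Agent.H96.KX.Targets

/-! Row BIZ: terms which live on a set killed by `D`. -/

set_option autoImplicit false

namespace Pool.Agent.H77.KX

open Finset Pool.Agent.H96.KX

theorem fac_nonneg {Z : Type} [Fintype Z] [DecidableEq Z] (o : Option Z) (z : Z) :
    0 ≤ fac o z := by
  cases o with
  | none => exact zero_le_one
  | some θ =>
    show 0 ≤ (if z = θ then (Fintype.card Z : ℝ) else 0)
    split_ifs
    · exact Nat.cast_nonneg _
    · exact le_rfl

theorem jun_nonneg {Z : Type} [Fintype Z] [DecidableEq Z] {N : ℕ} (τ : Fin N → Option Z)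
    (z : Fin N → Z) : 0 ≤ jun τ z := Finset.prod_nonneg fun i _ => fac_nonneg _ _

theorem sum_fac {Z : Type} [Fintype Z] [DecidableEq Z] (o : Option Z) :
    ∑ z, fac o z = Fintype.card Z := by
  cases o with
  | none =>
    show ∑ _z : Z, (1 : ℝ) = _
    simp
  | some θ =>
    show ∑ z, (if z = θ then (Fintype.card Z : ℝ) else 0) = _
    rw [Finset.sum_ite_eq' univ θ]
    simp

theorem sum_jun {Z : Type} [Fintype Z] [DecidableEq Z] {N : ℕ} (τ : Fin N → Option Z) :
    ∑ z, jun τ z = (Fintype.card Z : ℝ) ^ N := by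
  have h1 : ∑ z : Fin N → Z, ∏ i, fac (τ i) (z i) = ∏ i, ∑ z : Z, fac (τ i) z := by
    rw [Finset.prod_univ_sum, Fintype.piFinset_univ]
  show ∑ z : Fin N → Z, ∏ i, fac (τ i) (z i) = _
  rw [h1, Finset.prod_congr rfl (fun i _ => sum_fac (τ i))]
  simp

theorem jun_some {Z : Type} [Fintype Z] [DecidableEq Z] {N : ℕ} (y z : Fin N → Z) :
    jun (fun i => some (y i)) z = if z = y then (Fintype.card Z : ℝ) ^ N else 0 := by
  show ∏ i, (if z i = y i then (Fintype.card Z : ℝ) else 0) = _
  split_ifs with h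
  · subst h
    simp
  · obtain ⟨i, hi⟩ := Function.ne_iff.1 h
    exact Finset.prod_eq_zero (Finset.mem_univ i) (if_neg hi)

/-- for fixed `x`, the sum over `a` -/
theorem sum_a_eq {H U Z : Type} [Fintype H] [Fintype Z] [DecidableEq Z] (h : H → U → Z) {N : ℕ}
    (f : (Fin N → H) → ℝ) (x : Fin N → U) (D : (Fin N → Z) → ℝ) :
    (Fintype.card Z : ℝ) ^ N * ∑ a, f a * D (fun i => h (a i) (x i)) =
      ∑ z, rho h f x z * D z := by
  unfold rho
  simp only [Finset.sum_mul]
  rw [Finset.sum_comm, Finset.mul_sum]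
  refine Finset.sum_congr rfl fun a _ => ?_
  simp only [jun_some]
  rw [Finset.sum_eq_single (fun i => h (a i) (x i))]
  · rw [if_pos rfl]
    ring
  · intro z _ hz
    rw [if_neg hz]
    ring
  · intro hz
    exact absurd (Finset.mem_univ _) hz

theorem abs_sum_jun_le {Z : Type} [Fintype Z] [DecidableEq Z] {N : ℕ} (τ : Fin N → Option Z)
    (D : (Fin N → Z) → ℝ) (Mx : ℝ) (hD : ∀ z, |D z| ≤ Mx) :
    |∑ z, jun τ z * D z| ≤ Mx * (Fintype.card Z : ℝ) ^ N := by
  calc |∑ z, jun τ z * D z| ≤ ∑ z, |jun τ z * D z| := Finset.abs_sum_le_sum_abs _ _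
    _ ≤ ∑ z, jun τ z * Mx := by
        refine Finset.sum_le_sum fun z _ => ?_
        rw [abs_mul, abs_of_nonneg (jun_nonneg τ z)]
        exact mul_le_mul_of_nonneg_left (hD z) (jun_nonneg τ z)
    _ = Mx * (Fintype.card Z : ℝ) ^ N := by
        rw [← Finset.sum_mul, sum_jun]
        ring

theorem pf_BIZ (hK : S_KAP) : S_BIZ := by
  classical
  intro H U Z _ _ _ _ _ _ _ h hh hcard N t D Mx W hD hz f g hf hW
  obtain ⟨w, hw, hrho, hX⟩ := hK H U Z h hh hcard N t f hf
  have hMx : 0 ≤ Mx := (abs_nonneg _).trans (hD (fun _ => Classical.arbitrary Z))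
  have hQ : 0 < (Fintype.card Z : ℝ) := by exact_mod_cast Fintype.card_pos
  have hQN : 0 < (Fintype.card Z : ℝ) ^ N := pow_pos hQ N
  set X : (Fin N → U) → ℝ := fun x => ∑ τ with t ≤ psz τ, w x τ with hXdef
  have hX0 : ∀ x, 0 ≤ X x := fun x => Finset.sum_nonneg fun τ _ => hw x τ
  -- light terms vanish
  have hlight : ∀ x, g x ≠ 0 → ∀ τ, psz τ < t → w x τ * ∑ z, jun τ z * D z = 0 := by
    intro x hx τ hτ
    by_cases h0 : w x τ = 0
    · rw [h0, zero_mul]
    · have hwp : 0 < w x τ := lt_of_le_of_ne (hw x τ) (Ne.symm h0)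
      rw [hz τ hτ, mul_zero]
      intro z hjz
      have hjp : 0 < jun τ z := lt_of_le_of_ne (jun_nonneg τ z) (Ne.symm hjz)
      have hrp : 0 < rho h f x z := by
        rw [hrho x z]
        refine lt_of_lt_of_le (mul_pos hwp hjp) ?_
        exact Finset.single_le_sum (f := fun τ => w x τ * jun τ z)
          (fun τ' _ => mul_nonneg (hw x τ') (jun_nonneg τ' z)) (Finset.mem_univ τ)
      obtain ⟨a, ha⟩ : ∃ a, f a * jun (fun i => some (h (a i) (x i))) z ≠ 0 := by
        by_contra hcon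
        push Not at hcon
        have : rho h f x z = 0 := Finset.sum_eq_zero fun a _ => hcon a
        exact hrp.ne' this
      have hfa : f a ≠ 0 := left_ne_zero_of_mul ha
      have hja := right_ne_zero_of_mul ha
      rw [jun_some] at hja
      have hza : z = fun i => h (a i) (x i) := by
        by_contra hne
        exact hja (if_neg hne)
      rw [hza]
      exact hW a x hfa hx
  have hx1 : ∀ x, g x ≠ 0 → |∑ a, f a * D (fun i => h (a i) (x i))| ≤ Mx * X x := by
    intro x hx
    have e1 := sum_a_eq h f x D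
    have e2 : ∑ z, rho h f x z * D z = ∑ τ, w x τ * ∑ z, jun τ z * D z := by
      simp only [hrho, Finset.sum_mul, Finset.mul_sum]
      rw [Finset.sum_comm]
      refine Finset.sum_congr rfl fun τ _ => Finset.sum_congr rfl fun z _ => ?_
      ring
    have e3 : ∑ τ, w x τ * ∑ z, jun τ z * D z =
        ∑ τ with t ≤ psz τ, w x τ * ∑ z, jun τ z * D z := by
      rw [Finset.sum_filter]
      refine Finset.sum_congr rfl fun τ _ => ?_
      split_ifs with ht
      · rfl
      · exact hlight x hx τ (not_le.1 ht)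
    have e4 : |∑ τ with t ≤ psz τ, w x τ * ∑ z, jun τ z * D z| ≤
        (Fintype.card Z : ℝ) ^ N * (Mx * X x) := by
      calc |∑ τ with t ≤ psz τ, w x τ * ∑ z, jun τ z * D z|
          ≤ ∑ τ with t ≤ psz τ, |w x τ * ∑ z, jun τ z * D z| := Finset.abs_sum_le_sum_abs _ _
        _ ≤ ∑ τ with t ≤ psz τ, w x τ * (Mx * (Fintype.card Z : ℝ) ^ N) := by
            refine Finset.sum_le_sum fun τ _ => ?_
            rw [abs_mul, abs_of_nonneg (hw x τ)]
            exact mul_le_mul_of_nonneg_left (abs_sum_jun_le τ D Mx hD) (hw x τ)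
        _ = (Fintype.card Z : ℝ) ^ N * (Mx * X x) := by
            rw [← Finset.sum_mul]
            ring
    rw [← e3, ← e2, ← e1, abs_mul, abs_of_pos hQN] at e4
    exact le_of_mul_le_mul_left e4 hQN
  have hbil : bil h D f g = ∑ x, g x * ∑ a, f a * D (fun i => h (a i) (x i)) := by
    unfold bil
    rw [Finset.sum_comm]
    refine Finset.sum_congr rfl fun x _ => ?_
    rw [Finset.mul_sum]
    refine Finset.sum_congr rfl fun a _ => ?_
    ring
  have hmain : |bil h D f g| ≤ Mx * ∑ x, |g x| * X x := by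
    rw [hbil]
    calc |∑ x, g x * ∑ a, f a * D (fun i => h (a i) (x i))|
        ≤ ∑ x, |g x * ∑ a, f a * D (fun i => h (a i) (x i))| := Finset.abs_sum_le_sum_abs _ _
      _ ≤ ∑ x, |g x| * (Mx * X x) := by
          refine Finset.sum_le_sum fun x _ => ?_
          rw [abs_mul]
          by_cases hx : g x = 0
          · rw [hx]
            simp
          · exact mul_le_mul_of_nonneg_left (hx1 x hx) (abs_nonneg _)
      _ = Mx * ∑ x, |g x| * X x := by
          rw [Finset.mul_sum]
          refine Finset.sum_congr rfl fun x _ => ?_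
          ring
  refine hmain.trans (mul_le_mul_of_nonneg_left ?_ hMx)
  apply Real.le_sqrt_of_sq_le
  have hcs := Finset.sum_mul_sq_le_sq_mul_sq univ (fun x => |g x|) X
  have hg2 : ∑ x, |g x| ^ 2 = ∑ x, g x ^ 2 := Finset.sum_congr rfl fun x _ => sq_abs _
  rw [hg2] at hcs
  have hg0 : 0 ≤ ∑ x, g x ^ 2 := Finset.sum_nonneg fun x _ => sq_nonneg _
  calc (∑ x, |g x| * X x) ^ 2 ≤ (∑ x, g x ^ 2) * ∑ x, X x ^ 2 := hcs
    _ ≤ (∑ x, g x ^ 2) * (kap H U Z N t * ∑ a, f a ^ 2) :=
        mul_le_mul_of_nonneg_left hX hg0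
    _ = kap H U Z N t * ((∑ a, f a ^ 2) * ∑ x, g x ^ 2) := by ring

end Pool.Agent.H77.KX
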