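import Pool.Agent.H96.KX.Targets2

/-! Row EXP3: sparse 3-uniform systems with expansion `5/3`, by counting. -/

set_option autoImplicit false

namespace Pool.Agent.H77.KX

open Finset Pool.Agent.H96.KX

theorem fac_lb (n : ℕ) : (n : ℝ) ^ n ≤ 3 ^ n * (n.factorial : ℝ) := by
  have h1 := Real.pow_div_factorial_le_exp (n : ℝ) (Nat.cast_nonneg n) n
  have h2 : Real.exp (n : ℝ) = Real.exp 1 ^ n := by
    rw [← Real.exp_nat_mul, mul_one]
  have h3 : Real.exp 1 ^ n ≤ 3 ^ n :=
    pow_le_pow_left₀ (Real.exp_pos 1).le (by linarith [Real.exp_one_lt_d9]) n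
  have h4 : (0 : ℝ) < n.factorial := by exact_mod_cast Nat.factorial_pos n
  rw [div_le_iff₀ h4] at h1
  rw [h2] at h1
  exact h1.trans (mul_le_mul_of_nonneg_right h3 h4.le)

theorem choose_ub (n k : ℕ) (hk : 1 ≤ k) : (n.choose k : ℝ) ≤ (3 * (n : ℝ) / k) ^ k := by
  have h1 : (n.choose k : ℝ) ≤ (n : ℝ) ^ k / k.factorial := Nat.choose_le_pow_div k n
  have h2 := fac_lb k
  have h4 : (0 : ℝ) < k.factorial := by exact_mod_cast Nat.factorial_pos k
  have h5 : (0 : ℝ) < k := by exact_mod_cast hk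
  have h6 : (0 : ℝ) < (k : ℝ) ^ k := pow_pos h5 k
  refine h1.trans ?_
  rw [div_pow, mul_pow, div_le_div_iff₀ h4 h6]
  have h7 : (0 : ℝ) ≤ (n : ℝ) ^ k := by positivity
  calc (n : ℝ) ^ k * (k : ℝ) ^ k ≤ (n : ℝ) ^ k * (3 ^ k * k.factorial) :=
        mul_le_mul_of_nonneg_left h2 h7
    _ = 3 ^ k * (n : ℝ) ^ k * k.factorial := by ring

theorem choose3_ratio (w B : ℕ) (hw : w ≤ B) :
    (w.choose 3 : ℝ) * (B : ℝ) ^ 3 ≤ (B.choose 3 : ℝ) * (w : ℝ) ^ 3 := by
  rcases Nat.lt_or_ge w 3 with h | h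
  · rw [Nat.choose_eq_zero_of_lt h]
    push_cast
    rw [zero_mul]
    positivity
  · have hB : 3 ≤ B := h.trans hw
    have key : ∀ n : ℕ, 3 ≤ n → (n.choose 3 : ℝ) * 6 = (n : ℝ) * (n - 1) * (n - 2) := by
      intro n hn
      have e := Nat.descFactorial_eq_factorial_mul_choose n 3
      have e2 : n.descFactorial 3 = (n - 2) * ((n - 1) * n) := by
        simp [Nat.descFactorial]
      rw [e2] at e
      have e3 : (3 : ℕ).factorial = 6 := rfl
      rw [e3] at e
      have e4 : (((n - 2) * ((n - 1) * n) : ℕ) : ℝ) = ((6 * n.choose 3 : ℕ) : ℝ) := by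
        exact_mod_cast e
      push_cast [Nat.cast_sub (show 2 ≤ n by omega), Nat.cast_sub (show 1 ≤ n by omega)] at e4
      linarith
    have k1 := key w h
    have k2 := key B hB
    have hw' : (w : ℝ) ≤ B := by exact_mod_cast hw
    have h3 : (3 : ℝ) ≤ w := by exact_mod_cast h
    have a1 : ((w : ℝ) - 1) * B ≤ (B - 1) * w := by nlinarith
    have a2 : ((w : ℝ) - 2) * B ≤ (B - 2) * w := by nlinarith
    have a3 : (((w : ℝ) - 1) * B) * (((w : ℝ) - 2) * B) ≤ ((B - 1) * w) * ((B - 2) * w) :=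
      mul_le_mul a1 a2 (by
        apply mul_nonneg
        · linarith
        · linarith) (by
        apply mul_nonneg
        · linarith
        · linarith)
    have hwB : 0 ≤ (w : ℝ) * B := by positivity
    have a4 := mul_le_mul_of_nonneg_left a3 hwB
    have a5 : ((w.choose 3 : ℝ) * 6) * (B : ℝ) ^ 3 ≤ ((B.choose 3 : ℝ) * 6) * (w : ℝ) ^ 3 := by
      rw [k1, k2]
      calc (w : ℝ) * (w - 1) * (w - 2) * (B : ℝ) ^ 3
          = (w : ℝ) * B * ((((w : ℝ) - 1) * B) * (((w : ℝ) - 2) * B)) := by ring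
        _ ≤ (w : ℝ) * B * (((B - 1) * w) * ((B - 2) * w)) := a4
        _ = (B : ℝ) * (B - 1) * (B - 2) * (w : ℝ) ^ 3 := by ring
    linarith

/-- one term of the union bound -/
theorem exp3_term (R0 B s : ℕ) (hR0 : 1 ≤ R0) (hs : 1 ≤ s)
    (hsB : s * (19440000 * R0 ^ 3) ≤ 2 * B) :
    ((R0 * B).choose s : ℝ) * ((B.choose (5 * s / 3) : ℝ) *
      (((5 * s / 3 : ℕ) : ℝ) / B) ^ (3 * s)) ≤ (1 / 4) ^ s := by
  obtain ⟨w, hw⟩ : ∃ w, w = 5 * s / 3 := ⟨_, rfl⟩
  rw [← hw]
  have hw1 : 1 ≤ w := by omega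
  have hw2 : 3 * w ≤ 5 * s := by omega
  have hR3 : 1 ≤ R0 ^ 3 := Nat.one_le_pow _ _ hR0
  have hsB2 : s * 19440000 ≤ 2 * B := by
    refine le_trans ?_ hsB
    nlinarith
  have hB1 : 1 ≤ B := by omega
  have hwB : w ≤ B := by omega
  have b0 : (0 : ℝ) < B := by exact_mod_cast hB1
  have s0 : (0 : ℝ) < s := by exact_mod_cast hs
  have w0 : (0 : ℝ) < w := by exact_mod_cast hw1
  have r0 : (0 : ℝ) < R0 := by exact_mod_cast hR0
  have hwb : (w : ℝ) / B ≤ 1 := by
    rw [div_le_one b0]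
    exact_mod_cast hwB
  have hwb0 : (0 : ℝ) ≤ (w : ℝ) / B := by positivity
  have c1 : ((R0 * B).choose s : ℝ) ≤ (3 * ((R0 : ℝ) * B) / s) ^ s := by
    have := choose_ub (R0 * B) s hs
    push_cast at this
    exact this
  have c2 := choose_ub B w hw1
  -- the second and the third factor
  have c3 : (3 * (B : ℝ) / w) ^ w * ((w : ℝ) / B) ^ (3 * s) =
      3 ^ w * ((w : ℝ) / B) ^ (3 * s - w) := by
    have e : 3 * s = w + (3 * s - w) := by omega
    have e2 : (3 * (B : ℝ) / w) * ((w : ℝ) / B) = 3 := by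
      field_simp
    calc (3 * (B : ℝ) / w) ^ w * ((w : ℝ) / B) ^ (3 * s)
        = (3 * (B : ℝ) / w) ^ w * ((w : ℝ) / B) ^ (w + (3 * s - w)) := by rw [← e]
      _ = ((3 * (B : ℝ) / w) * ((w : ℝ) / B)) ^ w * ((w : ℝ) / B) ^ (3 * s - w) := by
          rw [pow_add, mul_pow]
          ring
      _ = 3 ^ w * ((w : ℝ) / B) ^ (3 * s - w) := by rw [e2]
  have c4 : (3 : ℝ) ^ w ≤ 9 ^ s := by
    have e : (9 : ℝ) ^ s = 3 ^ (2 * s) := by
      rw [pow_mul]
      norm_num
    rw [e]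
    exact pow_le_pow_right₀ (by norm_num) (by omega)
  have c5 : (((w : ℝ) / B) ^ (3 * s - w)) ^ 3 ≤ ((5 * (s : ℝ) / (3 * B)) ^ 4) ^ s := by
    rw [← pow_mul, ← pow_mul]
    have e1 : ((w : ℝ) / B) ^ ((3 * s - w) * 3) ≤ ((w : ℝ) / B) ^ (4 * s) :=
      pow_le_pow_of_le_one hwb0 hwb (by omega)
    refine e1.trans (pow_le_pow_left₀ hwb0 ?_ _)
    rw [div_le_div_iff₀ b0 (by positivity)]
    have e2 : 3 * (w : ℝ) ≤ 5 * s := by exact_mod_cast hw2
    nlinarith
  have hfin : (3 * ((R0 : ℝ) * B) / s) ^ s * (9 ^ s * ((w : ℝ) / B) ^ (3 * s - w)) ≤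
      (1 / 4) ^ s := by
    have p1 : 0 ≤ (3 * ((R0 : ℝ) * B) / s) ^ s * (9 ^ s * ((w : ℝ) / B) ^ (3 * s - w)) := by
      positivity
    refine le_of_pow_le_pow_left₀ (n := 3) (by norm_num) (by positivity) ?_
    have e1 : ((3 * ((R0 : ℝ) * B) / s) ^ s * (9 ^ s * ((w : ℝ) / B) ^ (3 * s - w))) ^ 3 =
        ((3 * ((R0 : ℝ) * B) / s) ^ 3 * 9 ^ 3) ^ s * (((w : ℝ) / B) ^ (3 * s - w)) ^ 3 := by
      have aux : ∀ a c : ℝ, (a ^ s * (9 ^ s * c)) ^ 3 = (a ^ 3 * 9 ^ 3) ^ s * c ^ 3 := by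
        intro a c
        rw [mul_pow, mul_pow, mul_pow, pow_right_comm a s 3, pow_right_comm 9 s 3, mul_assoc]
      exact aux _ _
    rw [e1]
    have e2 : ((3 * ((R0 : ℝ) * B) / s) ^ 3 * 9 ^ 3) ^ s * (((w : ℝ) / B) ^ (3 * s - w)) ^ 3 ≤
        ((3 * ((R0 : ℝ) * B) / s) ^ 3 * 9 ^ 3) ^ s * ((5 * (s : ℝ) / (3 * B)) ^ 4) ^ s :=
      mul_le_mul_of_nonneg_left c5 (by positivity)
    refine e2.trans ?_
    rw [← mul_pow]
    have e3 : ((1 / 4 : ℝ) ^ s) ^ 3 = ((1 / 4 : ℝ) ^ 3) ^ s := by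
      rw [← pow_mul, ← pow_mul, mul_comm]
    rw [e3]
    refine pow_le_pow_left₀ (by positivity) ?_ s
    have e4 : (3 * ((R0 : ℝ) * B) / s) ^ 3 * 9 ^ 3 * (5 * (s : ℝ) / (3 * B)) ^ 4 =
        151875 * R0 ^ 3 * (s / B) := by
      field_simp
      ring
    rw [e4]
    have e5 : (s : ℝ) * (19440000 * R0 ^ 3) ≤ 2 * B := by exact_mod_cast hsB
    have e6 : (151875 : ℝ) * R0 ^ 3 * (s / B) = (151875 * R0 ^ 3 * s) / B := by ring
    rw [e6, div_le_iff₀ b0]
    linarith
  refine le_trans ?_ hfin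
  refine mul_le_mul c1 ?_ (by positivity) (by positivity)
  calc (B.choose w : ℝ) * ((w : ℝ) / B) ^ (3 * s)
      ≤ (3 * (B : ℝ) / w) ^ w * ((w : ℝ) / B) ^ (3 * s) :=
        mul_le_mul_of_nonneg_right c2 (by positivity)
    _ = 3 ^ w * ((w : ℝ) / B) ^ (3 * s - w) := c3
    _ ≤ 9 ^ s * ((w : ℝ) / B) ^ (3 * s - w) :=
        mul_le_mul_of_nonneg_right c4 (by positivity)

theorem geo4 (n : ℕ) : ∑ s ∈ Finset.Icc 1 n, (1 / 4 : ℝ) ^ s ≤ 1 / 3 * (1 - (1 / 4) ^ n) := by
  induction n with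
  | zero => simp
  | succ n ih =>
    rw [Finset.sum_Icc_succ_top (by omega)]
    have e : (1 / 4 : ℝ) ^ (n + 1) = (1 / 4) ^ n * (1 / 4) := pow_succ _ _
    rw [e]
    linarith

theorem pf_EXP3 : S_EXP3 := by
  classical
  intro R0 hR0
  refine ⟨19440000 * R0 ^ 3, 3, ?_, ?_⟩
  · have : 1 ≤ R0 ^ 3 := Nat.one_le_pow _ _ hR0
    omega
  intro B hB
  obtain ⟨E, hE⟩ : ∃ E, E = 19440000 * R0 ^ 3 := ⟨_, rfl⟩
  rw [← hE]
  set R := R0 * B with hR
  -- all functions
  set Om : Finset (Fin R → Finset (Fin B)) :=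
    Fintype.piFinset (fun _ : Fin R => powersetCard 3 (univ : Finset (Fin B))) with hOm
  have hOmc : Om.card = (B.choose 3) ^ R := by
    rw [hOm, Fintype.card_piFinset]
    simp
  let Bad : Finset (Fin R) → Finset (Fin B) → Finset (Fin R → Finset (Fin B)) := fun S W =>
    Fintype.piFinset (fun i : Fin R => if i ∈ S then powersetCard 3 W else powersetCard 3 univ)
  have hBadc : ∀ (S : Finset (Fin R)) (W : Finset (Fin B)),
      (Bad S W).card = (W.card.choose 3) ^ S.card * (B.choose 3) ^ (R - S.card) := by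
    intro S W
    show (Fintype.piFinset _).card = _
    rw [Fintype.card_piFinset]
    have e1 : ∀ i : Fin R,
        (if i ∈ S then powersetCard 3 W else powersetCard 3 (univ : Finset (Fin B))).card =
          if i ∈ S then W.card.choose 3 else B.choose 3 := by
      intro i
      split_ifs
      · rw [card_powersetCard]
      · rw [card_powersetCard, Finset.card_univ, Fintype.card_fin]
    rw [Finset.prod_congr rfl (fun i _ => e1 i), Finset.prod_ite, Finset.prod_const,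
      Finset.prod_const]
    have e2 : (univ.filter (fun i : Fin R => i ∈ S)) = S := by
      ext i
      simp
    have e3 : (univ.filter (fun i : Fin R => ¬ i ∈ S)) = Sᶜ := by
      ext i
      simp
    rw [e2, e3, Finset.card_compl, Fintype.card_fin]
  set bad : Finset (Fin R → Finset (Fin B)) :=
    (Finset.Icc 1 (2 * (B / E))).biUnion fun s =>
      (powersetCard s (univ : Finset (Fin R))).biUnion fun S =>
        (powersetCard (5 * s / 3) (univ : Finset (Fin B))).biUnion fun W => Bad S W with hbad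
  have b0 : (0 : ℝ) < B := by
    have : 0 < B := by omega
    exact_mod_cast this
  have hc3 : (0 : ℝ) < (B.choose 3 : ℝ) := by
    exact_mod_cast Nat.choose_pos hB
  have hEpos : 1 ≤ E := by
    have : 1 ≤ R0 ^ 3 := Nat.one_le_pow _ _ hR0
    omega
  have hsE : ∀ s, s ≤ 2 * (B / E) → s * E ≤ 2 * B := by
    intro s hs
    calc s * E ≤ 2 * (B / E) * E := Nat.mul_le_mul_right _ hs
      _ = 2 * (B / E * E) := by ring
      _ ≤ 2 * B := Nat.mul_le_mul_left _ (Nat.div_mul_le_self B E)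
  have hlt : (bad.card : ℝ) < (Om.card : ℝ) := by
    have h1 : bad.card ≤ ∑ s ∈ Finset.Icc 1 (2 * (B / E)),
        ∑ S ∈ powersetCard s (univ : Finset (Fin R)),
          ∑ W ∈ powersetCard (5 * s / 3) (univ : Finset (Fin B)), (Bad S W).card := by
      rw [hbad]
      refine Finset.card_biUnion_le.trans (Finset.sum_le_sum fun s _ => ?_)
      refine Finset.card_biUnion_le.trans (Finset.sum_le_sum fun S _ => ?_)
      exact Finset.card_biUnion_le
    have h2 : ∀ s ∈ Finset.Icc 1 (2 * (B / E)),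
        ((∑ S ∈ powersetCard s (univ : Finset (Fin R)),
          ∑ W ∈ powersetCard (5 * s / 3) (univ : Finset (Fin B)), (Bad S W).card : ℕ) : ℝ) ≤
          (1 / 4) ^ s * (B.choose 3 : ℝ) ^ R := by
      intro s hs
      rw [Finset.mem_Icc] at hs
      have hsb := hsE s hs.2
      by_cases hsR : s ≤ R
      · have e1 : ∑ S ∈ powersetCard s (univ : Finset (Fin R)),
            ∑ W ∈ powersetCard (5 * s / 3) (univ : Finset (Fin B)), (Bad S W).card =
            R.choose s * (B.choose (5 * s / 3) *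
              (((5 * s / 3).choose 3) ^ s * (B.choose 3) ^ (R - s))) := by
          have e2 : ∀ S ∈ powersetCard s (univ : Finset (Fin R)),
              ∑ W ∈ powersetCard (5 * s / 3) (univ : Finset (Fin B)), (Bad S W).card =
              B.choose (5 * s / 3) * (((5 * s / 3).choose 3) ^ s * (B.choose 3) ^ (R - s)) := by
            intro S hS
            have hSc := (Finset.mem_powersetCard.1 hS).2
            have e3 : ∀ W ∈ powersetCard (5 * s / 3) (univ : Finset (Fin B)), (Bad S W).card =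
                ((5 * s / 3).choose 3) ^ s * (B.choose 3) ^ (R - s) := by
              intro W hW
              rw [hBadc, hSc, (Finset.mem_powersetCard.1 hW).2]
            rw [Finset.sum_congr rfl e3, Finset.sum_const, card_powersetCard, Finset.card_univ,
              Fintype.card_fin, smul_eq_mul]
          rw [Finset.sum_congr rfl e2, Finset.sum_const, card_powersetCard, Finset.card_univ,
            Fintype.card_fin, smul_eq_mul]
        rw [e1]
        push_cast
        have hwB : 5 * s / 3 ≤ B := by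
          have h5 : s * 19440000 ≤ s * E := by
            refine Nat.mul_le_mul_left _ ?_
            have : 1 ≤ R0 ^ 3 := Nat.one_le_pow _ _ hR0
            omega
          omega
        have e4 : ((5 * s / 3).choose 3 : ℝ) ≤
            (B.choose 3 : ℝ) * (((5 * s / 3 : ℕ) : ℝ) / B) ^ 3 := by
          have := choose3_ratio (5 * s / 3) B hwB
          rw [div_pow, ← mul_div_assoc, le_div_iff₀ (pow_pos b0 3)]
          exact this
        have e5 : ((5 * s / 3).choose 3 : ℝ) ^ s * (B.choose 3 : ℝ) ^ (R - s) ≤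
            (((5 * s / 3 : ℕ) : ℝ) / B) ^ (3 * s) * (B.choose 3 : ℝ) ^ R := by
          have e6 := pow_le_pow_left₀ (Nat.cast_nonneg _) e4 s
          calc ((5 * s / 3).choose 3 : ℝ) ^ s * (B.choose 3 : ℝ) ^ (R - s)
              ≤ ((B.choose 3 : ℝ) * (((5 * s / 3 : ℕ) : ℝ) / B) ^ 3) ^ s *
                  (B.choose 3 : ℝ) ^ (R - s) :=
                mul_le_mul_of_nonneg_right e6 (by positivity)
            _ = (((5 * s / 3 : ℕ) : ℝ) / B) ^ (3 * s) *
                  ((B.choose 3 : ℝ) ^ s * (B.choose 3 : ℝ) ^ (R - s)) := by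
                rw [mul_pow, ← pow_mul]
                ring
            _ = (((5 * s / 3 : ℕ) : ℝ) / B) ^ (3 * s) * (B.choose 3 : ℝ) ^ R := by
                rw [← pow_add]
                congr 2
                omega
        have e7 := exp3_term R0 B s hR0 hs.1 (by rw [← hE]; exact hsb)
        calc (R.choose s : ℝ) * ((B.choose (5 * s / 3) : ℝ) *
              (((5 * s / 3).choose 3 : ℝ) ^ s * (B.choose 3 : ℝ) ^ (R - s)))
            ≤ (R.choose s : ℝ) * ((B.choose (5 * s / 3) : ℝ) *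
              ((((5 * s / 3 : ℕ) : ℝ) / B) ^ (3 * s) * (B.choose 3 : ℝ) ^ R)) := by
              refine mul_le_mul_of_nonneg_left ?_ (Nat.cast_nonneg _)
              exact mul_le_mul_of_nonneg_left e5 (Nat.cast_nonneg _)
          _ = ((R.choose s : ℝ) * ((B.choose (5 * s / 3) : ℝ) *
              (((5 * s / 3 : ℕ) : ℝ) / B) ^ (3 * s))) * (B.choose 3 : ℝ) ^ R := by ring
          _ ≤ (1 / 4) ^ s * (B.choose 3 : ℝ) ^ R :=
              mul_le_mul_of_nonneg_right e7 (by positivity)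
      · have e1 : powersetCard s (univ : Finset (Fin R)) = ∅ := by
          rw [Finset.powersetCard_eq_empty, Finset.card_univ, Fintype.card_fin]
          omega
        rw [e1]
        simp only [Finset.sum_empty, Nat.cast_zero]
        positivity
    have h3 : (bad.card : ℝ) ≤ ∑ s ∈ Finset.Icc 1 (2 * (B / E)),
        (1 / 4 : ℝ) ^ s * (B.choose 3 : ℝ) ^ R := by
      refine le_trans (Nat.cast_le.2 h1) ?_
      rw [Nat.cast_sum]
      exact Finset.sum_le_sum h2
    rw [← Finset.sum_mul] at h3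
    have h4 := geo4 (2 * (B / E))
    have h5 : (0 : ℝ) < (1 / 4) ^ (2 * (B / E)) := by positivity
    have h6 : (0 : ℝ) < (B.choose 3 : ℝ) ^ R := pow_pos hc3 R
    rw [hOmc]
    push_cast
    refine lt_of_le_of_lt h3 ?_
    nlinarith
  have hlt' : bad.card < Om.card := by exact_mod_cast hlt
  obtain ⟨T, hTO, hTb⟩ : ∃ T ∈ Om, T ∉ bad := Finset.exists_mem_notMem_of_card_lt_card hlt'
  have hT3 : ∀ i, (T i).card = 3 := by
    intro i
    rw [hOm, Fintype.mem_piFinset] at hTO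
    exact (Finset.mem_powersetCard.1 (hTO i)).2
  refine ⟨T, hT3, ?_⟩
  intro S hSne hSc
  by_contra hcon
  push Not at hcon
  apply hTb
  have hS1 : 1 ≤ S.card := Finset.card_pos.2 hSne
  have hUw : (S.biUnion T).card ≤ 5 * S.card / 3 := by omega
  have hwB : 5 * S.card / 3 ≤ B := by
    have h6 := hsE S.card hSc
    have h5 : S.card * 19440000 ≤ S.card * E := by
      refine Nat.mul_le_mul_left _ ?_
      have : 1 ≤ R0 ^ 3 := Nat.one_le_pow _ _ hR0
      omega
    omega
  obtain ⟨W, hUW, hWc⟩ := Finset.exists_superset_card_eq hUw (by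
    rw [Fintype.card_fin]
    exact hwB)
  rw [hbad, Finset.mem_biUnion]
  refine ⟨S.card, Finset.mem_Icc.2 ⟨hS1, hSc⟩, ?_⟩
  rw [Finset.mem_biUnion]
  refine ⟨S, Finset.mem_powersetCard.2 ⟨Finset.subset_univ _, rfl⟩, ?_⟩
  rw [Finset.mem_biUnion]
  refine ⟨W, Finset.mem_powersetCard.2 ⟨Finset.subset_univ _, hWc⟩, ?_⟩
  show T ∈ Fintype.piFinset _
  rw [Fintype.mem_piFinset]
  intro i
  split_ifs with hi
  · refine Finset.mem_powersetCard.2 ⟨?_, hT3 i⟩
    exact (Finset.subset_biUnion_of_mem T hi).trans hUW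
  · exact Finset.mem_powersetCard.2 ⟨Finset.subset_univ _, hT3 i⟩

end Pool.Agent.H77.KX
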